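import Pool.Agent.H85.OU.ZEa
import Pool.Agent.H85.OU.Dsc

/-!
# Project OP (MP_17d720, helper74's theorem): independence of `z` and `T1` over a level datum

* `ind_closed`: `K` algebraically closed of characteristic `0`.
* `ind`: any field of characteristic `0` (base change to the algebraic closure).
* `LD_x`: `x = xx K` can be adjoined to a level datum.
-/

open PowerSeries
open Pool.Agent.H85.OT Pool.Agent.H85.OU

namespace Pool.Agent.H85.OP

/-- `δ (F U^(-κ)) = φ U^(-κ-2) - κ z F U^(-κ)` -/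
theorem del_T {K : Type*} [Field K] (κ : ℕ) (hκ : 0 < κ) (F φ : K⟦X⟧) (hF : Dq K F = φ) :
    OT.del K (F * (U K)⁻¹ ^ κ) = φ * (U K)⁻¹ ^ (κ + 2) + -((κ : K⟦X⟧) * zz K) * (F * (U K)⁻¹ ^ κ) := by
  obtain ⟨m, rfl⟩ : ∃ m, κ = m + 1 := ⟨κ - 1, by omega⟩
  have hU := U_mul_inv K
  have h1 : Dq K ((U K)⁻¹) = -(ee K * (U K)⁻¹) := by
    have h2 : Dq K (U K * (U K)⁻¹) = 0 := by
      rw [hU]
      exact Derivation.map_one_eq_zero _
    rw [Derivation.leibniz, smul_eq_mul, smul_eq_mul, Dq_U] at h2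
    have h3 : (U K)⁻¹ * (U K * Dq K ((U K)⁻¹) + (U K)⁻¹ * (ee K * U K)) = 0 := by
      rw [h2, mul_zero]
    linear_combination h3 - (Dq K ((U K)⁻¹) + ee K * (U K)⁻¹) * hU
  have h2 : Dq K ((U K)⁻¹ ^ (m + 1)) = -(((m + 1 : ℕ) : K⟦X⟧) * ee K * (U K)⁻¹ ^ (m + 1)) := by
    rw [Derivation.leibniz_pow, h1, Nat.add_sub_cancel, nsmul_eq_mul, smul_eq_mul]
    ring
  rw [OT.del_apply, Derivation.leibniz, smul_eq_mul, smul_eq_mul, hF, h2]
  unfold zz
  ring

private lemma Ind_smul {K : Type*} [Field K] {k : ℕ} (c : K) {y : K⟦X⟧}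
    (hy : IsDeg K k (y ^ 2)) : IsDeg K k ((algebraMap K K⟦X⟧ c * y) ^ 2) := by
  have h5 : (algebraMap K K⟦X⟧ c * y) ^ 2 = evl K (Polynomial.C (c ^ 2)) * y ^ 2 := by
    rw [evl, Polynomial.aeval_C, mul_pow, map_pow]
  have h6 := (IsDeg.of_evl (K := K) (n := 0) (Polynomial.C (c ^ 2))
    (Polynomial.natDegree_C _).le).mul hy
  rw [zero_add] at h6
  rw [h5]
  exact h6

private lemma Ind_degA {K : Type} [Field K] {r : ℕ} {e : Fin r → K⟦X⟧} (h : LD K r e) {n : ℕ}
    (z : h.alg) (hz : IsDeg K n (z : K⟦X⟧)) :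
    IsDegA K (algebraMap h.alg (FractionRing h.alg) ⟨lam K, h.lam_mem⟩) n
      (algebraMap h.alg (FractionRing h.alg) z) := by
  obtain ⟨r', a, hr, ha, h0⟩ := hz
  refine ⟨r', a, hr, ha, ?_⟩
  obtain ⟨ℓA, hℓA⟩ : ∃ ℓA : h.alg, ℓA = ⟨lam K, h.lam_mem⟩ := ⟨_, rfl⟩
  rw [← hℓA]
  have hval : ((ℓA : h.alg) : K⟦X⟧) = lam K := by rw [hℓA]
  have haev : ∀ P : Polynomial K, ((Polynomial.aeval ℓA P : h.alg) : K⟦X⟧) =
      Polynomial.aeval (lam K) P := by
    intro P
    rw [← hval]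
    exact (Polynomial.aeval_algHom_apply h.alg.val ℓA P).symm
  have h1 : z ^ r' + ∑ m ∈ Finset.Icc 1 r', Polynomial.aeval ℓA (a m) * z ^ (r' - m) = 0 := by
    apply Subtype.ext
    rw [Subalgebra.coe_add, Subalgebra.coe_pow, Subalgebra.coe_zero]
    rw [← Subalgebra.val_apply, ← Subalgebra.val_apply, map_sum]
    simp only [map_mul, map_pow, Subalgebra.val_apply, haev]
    exact h0
  have h2 := congrArg (algebraMap h.alg (FractionRing h.alg)) h1
  rw [map_add, map_pow, map_sum, map_zero] at h2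
  rw [← h2]
  congr 1
  refine Finset.sum_congr rfl fun m _ => ?_
  rw [map_mul, map_pow, Polynomial.aeval_algebraMap_apply]

private lemma Ind_nat {K : Type*} [Field K] {R : Type*} [CommRing R] (Z : ZD K R) (m : ℕ) :
    Z.B 0 0 (m : R) := by
  induction m with
  | zero => simpa using Z.B_zero
  | succ m ih =>
    rw [Nat.cast_succ]
    exact Z.B_add ih Z.B_one

/-- the tower `A ⊆ A[z] ⊆ A[z][U1]` over an abstract ring: nonvanishing -/
private lemma Ind_tower {K : Type*} [Field K] [CharZero K] {A : Type*} [CommRing A] [IsDomain A]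
    [CharZero A] (κ : ℕ) (Z0 : ZD K A) (hZ0 : Z0.Zest) (hBall : ∀ y : A, ∃ c1, Z0.B c1 c1 y)
    (gA ψ1 : A)
    (hgev : (4 : K⟦X⟧) * Z0.ev gA = xx K ^ 2 * (1 - xx K ^ 2))
    (hn0 : ∀ P : Polynomial A, P ≠ 0 → ∀ c : A, c ≠ 0 →
      P ∣ Polynomial.C c * dext Z0.d (Polynomial.C gA - Polynomial.X ^ 2) P → P.natDegree = 0)
    (hn1 : NS (dext Z0.d (Polynomial.C gA - Polynomial.X ^ 2)) (Polynomial.C ψ1) (bX κ))
    (T1 : K⟦X⟧) (hT1 : OT.del K T1 = Z0.ev ψ1 + -((κ : K⟦X⟧) * zz K) * T1)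
    (L : ℕ) (P : ℕ → ℕ → A) (hP0 : ∃ i < L, ∃ j < L, P i j ≠ 0) :
    ∑ i ∈ Finset.range L, ∑ j ∈ Finset.range L, Z0.ev (P i j) * zz K ^ i * T1 ^ j ≠ 0 := by
  obtain ⟨cg, hcg⟩ := hBall gA
  obtain ⟨c1, hc1⟩ := hBall ψ1
  have two : (2 : K) ≠ 0 := two_ne_zero
  have hB00 : ∀ n e, Z0.B n e 0 := fun n e => Z0.B_mono (Nat.zero_le _) (Nat.zero_le _) Z0.B_zero
  -- Z1
  obtain ⟨Z1, hD1, hev1, hB1⟩ := exists_ext Z0 (Polynomial.C gA - Polynomial.X ^ 2)
    (by
      refine (Polynomial.natDegree_sub_le _ _).trans (max_le ?_ ?_)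
      · rw [Polynomial.natDegree_C]
        omega
      · exact (Polynomial.natDegree_X_pow_le 2)) cg
    (by
      intro i
      rw [Polynomial.coeff_sub, Polynomial.coeff_C, Polynomial.coeff_X_pow]
      rcases i with _ | _ | _ | i
      · simpa using hcg
      · simpa using hB00 cg cg
      · simpa using Z0.B_mono (Nat.zero_le _) (Nat.zero_le _) (Z0.B_neg Z0.B_one)
      · simpa using hB00 cg cg) (zz K)
    (by
      rw [Polynomial.eval₂_sub, Polynomial.eval₂_C, Polynomial.eval₂_pow, Polynomial.eval₂_X,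
        OT.del_apply]
      have h3 := Dq_zz K two
      have h4 := Zest_inv (K := K)
      have h5 : (4 : K⟦X⟧) ≠ 0 := by
        have h8 : (4 : K⟦X⟧) = algebraMap K K⟦X⟧ 4 := (map_ofNat _ 4).symm
        rw [h8]
        intro h9
        have h10 : (4 : K) = 0 := (algebraMap K K⟦X⟧).injective (h9.trans (map_zero _).symm)
        have h11 : (4 : K) ≠ 0 := by norm_num
        exact h11 h10
      apply mul_left_cancel₀ h5
      rw [mul_sub, hgev]
      linear_combination (U K)⁻¹ ^ 2 * h3 + (xx K ^ 2 * (1 - xx K ^ 2) - 4 * zz K ^ 2) * h4)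
  have hZ1 : Z1.Zest := zest_ricG Z0 hZ0 gA cg hcg
    hn0 Z1 hD1
    (fun a => by rw [hev1, Polynomial.eval₂_C]) hB1
  -- values
  have hev1C : ∀ a, Z1.ev (Polynomial.C a) = Z0.ev a := by
    intro a
    rw [hev1, Polynomial.eval₂_C]
  have hevb : Z1.ev (bX κ) = -((κ : K⟦X⟧) * zz K) := by
    unfold bX
    rw [map_neg, map_mul, map_natCast, hev1 Polynomial.X, Polynomial.eval₂_X]
  have hBC : ∀ (n e : ℕ) (a : A), Z0.B n e a → Z1.B n e (Polynomial.C a) := by
    intro n e a ha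
    rw [hB1]
    refine ⟨by rw [Polynomial.natDegree_C]; omega, fun i => ?_⟩
    rw [Polynomial.coeff_C]
    split_ifs
    · exact ha
    · exact hB00 n e
  have hBb : Z1.B 1 1 (bX κ) := by
    rw [hB1]
    unfold bX
    refine ⟨?_, fun i => ?_⟩
    · rw [Polynomial.natDegree_neg]
      refine (Polynomial.natDegree_mul_le).trans ?_
      rw [Polynomial.natDegree_natCast]
      have := Polynomial.natDegree_X_le (R := A)
      omega
    · rw [Polynomial.coeff_neg, ← Polynomial.C_eq_natCast, Polynomial.coeff_C_mul,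
        Polynomial.coeff_X]
      refine Z0.B_neg ?_
      split_ifs
      · rw [mul_one]
        exact Z0.B_mono (Nat.zero_le _) (Nat.zero_le _) (Ind_nat Z0 κ)
      · rw [mul_zero]
        exact hB00 1 1
  -- Z2
  obtain ⟨Z2, hZ2, hD2, hev2, hB2⟩ := Zest_ext Z1 hZ1 (Polynomial.C ψ1) (bX κ) (c1 + 1)
    (hBC _ _ _ (Z0.B_mono (Nat.le_succ _) (Nat.le_succ _) hc1))
    (Z1.B_mono (by omega) (by omega) hBb)
    (by rw [hD1]; exact hn1) T1
    (by rw [hev1C, hevb]; exact hT1)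
  -- the polynomial
  obtain ⟨Q, hQ⟩ : ∃ Q : Polynomial (Polynomial A),
    Q = ∑ j ∈ Finset.range L, Polynomial.monomial j
      (∑ i ∈ Finset.range L, Polynomial.monomial i (P i j)) := ⟨_, rfl⟩
  choose c hc using hBall
  obtain ⟨N, hN⟩ : ∃ N, N = L + ∑ i ∈ Finset.range L, ∑ j ∈ Finset.range L, c (P i j) := ⟨_, rfl⟩
  have hle : ∀ i < L, ∀ j < L, c (P i j) ≤ N := by
    intro i hi j hj
    have a1 : c (P i j) ≤ ∑ j ∈ Finset.range L, c (P i j) :=
      Finset.single_le_sum (f := fun j => c (P i j)) (fun _ _ => Nat.zero_le _)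
        (Finset.mem_range.2 hj)
    have a2 : ∑ j ∈ Finset.range L, c (P i j) ≤
        ∑ i ∈ Finset.range L, ∑ j ∈ Finset.range L, c (P i j) :=
      Finset.single_le_sum (f := fun i => ∑ j ∈ Finset.range L, c (P i j))
        (fun _ _ => Nat.zero_le _) (Finset.mem_range.2 hi)
    omega
  have hLN : L ≤ N := by omega
  have hQB : Z2.B N N Q := by
    rw [hB2, hQ]
    refine ⟨(Zest_deg _ L).trans hLN, fun j => ?_⟩
    rw [Zest_coeff]
    split_ifs with hj
    · rw [hB1]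
      refine ⟨(Zest_deg _ L).trans hLN, fun i => ?_⟩
      rw [Zest_coeff]
      split_ifs with hi
      · exact Z0.B_mono (hle i hi j hj) (hle i hi j hj) (hc (P i j))
      · exact hB00 _ _
    · exact Z1.B_mono (Nat.zero_le _) (Nat.zero_le _) Z1.B_zero
  have hQ0 : Q ≠ 0 := by
    obtain ⟨i, hi, j, hj, hij⟩ := hP0
    intro h0'
    have h3 : (Q.coeff j).coeff i = 0 := by
      rw [h0', Polynomial.coeff_zero, Polynomial.coeff_zero]
    have h4 : (Q.coeff j).coeff i = P i j := by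
      rw [hQ]
      have e1 := Zest_coeff (fun j => ∑ i ∈ Finset.range L,
        Polynomial.monomial i (P i j)) L j
      rw [if_pos hj] at e1
      have e2 := Zest_coeff (fun i => P i j) L i
      rw [if_pos hi] at e2
      exact (congrArg (fun q => Polynomial.coeff q i) e1).trans e2
    exact hij (h4.symm.trans h3)
  have hQev : Z2.ev Q = ∑ i ∈ Finset.range L, ∑ j ∈ Finset.range L,
      Z0.ev (P i j) * zz K ^ i * T1 ^ j := by
    rw [hev2, hQ, Polynomial.eval₂_finsetSum, Finset.sum_comm]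
    refine Finset.sum_congr rfl fun j _ => ?_
    rw [Polynomial.eval₂_monomial, hev1, Polynomial.eval₂_finsetSum, Finset.sum_mul]
    refine Finset.sum_congr rfl fun i _ => ?_
    rw [Polynomial.eval₂_monomial]
  obtain ⟨C, hC⟩ := hZ2 N
  obtain ⟨l, -, hl⟩ := hC N Q hQB hQ0
  rw [← hQev]
  intro h
  rw [h, map_zero] at hl
  exact hl rfl

theorem ind_closed {K : Type} [Field K] [CharZero K] [IsAlgClosed K] (κ : ℕ) (hκ : 0 < κ)
    {r : ℕ} {e : Fin r → K⟦X⟧} (h : LD K r e) (f : K⟦X⟧)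
    (hf : f * (U K)⁻¹ ^ (κ + 2) ∈ SP K e) (hd : IsDeg K (κ + 2) ((f * (U K)⁻¹ ^ (κ + 2)) ^ 2))
    (hne : f ≠ 0) (F : K⟦X⟧) (hF : Dq K F = f) (L : ℕ) (P : ℕ → ℕ → K⟦X⟧)
    (hP : ∀ i < L, ∀ j < L, P i j ∈ SP K e) (hP0 : ∃ i < L, ∃ j < L, P i j ≠ 0) :
    ∑ i ∈ Finset.range L, ∑ j ∈ Finset.range L,
      P i j * zz K ^ i * (F * (U K)⁻¹ ^ κ) ^ j ≠ 0 := by
  obtain ⟨D, hD, hNA, hconst⟩ := naset_of_LD h
  obtain ⟨ψ1, hψ1⟩ : ∃ ψ1 : h.alg, (ψ1 : K⟦X⟧) = f * (U K)⁻¹ ^ (κ + 2) := ⟨⟨_, hf⟩, rfl⟩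
  obtain ⟨ℓA, hℓA⟩ : ∃ ℓA : h.alg, ℓA = ⟨lam K, h.lam_mem⟩ := ⟨_, rfl⟩
  have hℓv : ((ℓA : h.alg) : K⟦X⟧) = lam K := by rw [hℓA]
  obtain ⟨gA, hgA⟩ : ∃ gA : h.alg, gA = algebraMap K h.alg (1 / 4) * (ℓA * (1 - ℓA)) := ⟨_, rfl⟩
  have hι : Function.Injective (algebraMap h.alg (FractionRing h.alg)) :=
    IsFractionRing.injective _ _
  have hL0 : CharZero (FractionRing h.alg) :=
    charZero_of_injective_algebraMap (algebraMap K (FractionRing h.alg)).injective
  have hA0 : CharZero h.alg := charZero_of_injective_algebraMap (algebraMap K h.alg).injective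
  have hιK : ∀ c : K, algebraMap h.alg (FractionRing h.alg) (algebraMap K h.alg c) =
      algebraMap K (FractionRing h.alg) c := fun c =>
    (IsScalarTower.algebraMap_apply K h.alg (FractionRing h.alg) c).symm
  have hιg : algebraMap h.alg (FractionRing h.alg) gA =
      algebraMap h.alg (FractionRing h.alg) ℓA *
        (1 - algebraMap h.alg (FractionRing h.alg) ℓA) / 4 := by
    rw [hgA, map_mul, map_mul, map_sub, map_one, hιK, map_div₀, map_one, map_ofNat]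
    ring
  rw [← hℓA] at hNA
  have hDL : DLp D (algebraMap h.alg (FractionRing h.alg) ℓA *
      (1 - algebraMap h.alg (FractionRing h.alg) ℓA) / 4) :=
    dlp_of_algebraic D hNA.dK _ hNA.dl hNA.tr (NSa_alg hNA)
  have hfac : (((-1) ^ κ * (κ.factorial : K) : K)) ≠ 0 :=
    mul_ne_zero (pow_ne_zero _ (neg_ne_zero.2 one_ne_zero)) (Nat.cast_ne_zero.2 κ.factorial_ne_zero)
  have hns1 : NS (dext D (Polynomial.C (algebraMap h.alg (FractionRing h.alg) ℓA *
      (1 - algebraMap h.alg (FractionRing h.alg) ℓA) / 4) - Polynomial.X ^ 2))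
      (Polynomial.C (algebraMap h.alg (FractionRing h.alg) ψ1)) (bX κ) := by
    refine nsL1 D _ hDL κ hκ _ ?_
    intro a ha
    obtain ⟨ψ', hψ'⟩ : ∃ ψ' : h.alg, ψ' = algebraMap K h.alg ((-1) ^ κ * (κ.factorial : K)) * ψ1 :=
      ⟨_, rfl⟩
    have e1 : (-1) ^ κ * (κ.factorial : FractionRing h.alg) *
        algebraMap h.alg (FractionRing h.alg) ψ1 = algebraMap h.alg (FractionRing h.alg) ψ' := by
      rw [hψ', map_mul, hιK]
      simp only [map_mul, map_pow, map_neg, map_one, map_natCast]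
    rw [e1] at ha
    have h0 := noNA hNA κ hκ a _ (hNA.int _ ⟨ψ', rfl⟩)
      (by
        rw [← map_pow, hℓA]
        refine Ind_degA h _ ?_
        have e2 : ((ψ' ^ 2 : h.alg) : K⟦X⟧) =
            (algebraMap K K⟦X⟧ ((-1) ^ κ * (κ.factorial : K)) * (f * (U K)⁻¹ ^ (κ + 2))) ^ 2 := by
          rw [hψ', ← hψ1]
          rfl
        rw [e2]
        exact Ind_smul _ hd) ha
    have h1 : ψ' = 0 := hι (h0.trans (map_zero _).symm)
    have h2 : (algebraMap K K⟦X⟧ ((-1) ^ κ * (κ.factorial : K))) * (f * (U K)⁻¹ ^ (κ + 2)) = 0 := by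
      have h3 : ((ψ' : h.alg) : K⟦X⟧) = 0 := by rw [h1]; rfl
      rw [hψ'] at h3
      rw [← hψ1]
      exact h3
    have h3 : algebraMap K K⟦X⟧ ((-1) ^ κ * (κ.factorial : K)) ≠ 0 := by
      intro h4
      exact hfac ((algebraMap K K⟦X⟧).injective (h4.trans (map_zero _).symm))
    have h4 := (mul_eq_zero.1 h2).resolve_left h3
    have h7 : (U K)⁻¹ ^ (κ + 2) ≠ 0 := by
      refine pow_ne_zero _ ?_
      intro h8
      have h9 := U_mul_inv K
      rw [h8, mul_zero] at h9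
      exact zero_ne_one h9
    exact hne ((mul_eq_zero.1 h4).resolve_right h7)
  rw [← hιg] at hDL hns1
  have hn0 := nst0 (algebraMap h.alg (FractionRing h.alg)) hι h.dA D hD gA hDL
  have hn1 := nst1 (algebraMap h.alg (FractionRing h.alg)) hι h.dA D hD gA ψ1 κ hns1
  -- the tower
  obtain ⟨Z0, hZ0, hD0, hev0, hBc, hBP⟩ := exists_ZB h
  have hgev : (4 : K⟦X⟧) * Z0.ev gA = xx K ^ 2 * (1 - xx K ^ 2) := by
    rw [hev0, hgA]
    have e1 : ((algebraMap K h.alg (1 / 4) * (ℓA * (1 - ℓA)) : h.alg) : K⟦X⟧) =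
        algebraMap K K⟦X⟧ (1 / 4) * ((ℓA : K⟦X⟧) * (1 - (ℓA : K⟦X⟧))) := rfl
    rw [e1, hℓv]
    have h7 : (4 : K⟦X⟧) * algebraMap K K⟦X⟧ (1 / 4) = 1 := by
      have h8 : (4 : K⟦X⟧) = algebraMap K K⟦X⟧ 4 := (map_ofNat _ 4).symm
      rw [h8, ← map_mul]
      norm_num
    unfold lam
    linear_combination (xx K ^ 2 * (1 - xx K ^ 2)) * h7
  rw [← hD0] at hn0 hn1
  classical
  obtain ⟨pA, hpA⟩ : ∃ pA : ℕ → ℕ → h.alg, ∀ i < L, ∀ j < L, ((pA i j : h.alg) : K⟦X⟧) = P i j := by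
    refine ⟨fun i j => if hij : P i j ∈ SP K e then ⟨P i j, hij⟩ else 0, fun i hi j hj => ?_⟩
    beta_reduce
    rw [dif_pos (hP i hi j hj)]
  have hC := Ind_tower κ Z0 hZ0 hBc gA ψ1 hgev hn0 hn1
    (F * (U K)⁻¹ ^ κ)
    (by rw [hev0, hψ1]; exact del_T κ hκ F f hF) L pA
    (by
      obtain ⟨i, hi, j, hj, hij⟩ := hP0
      refine ⟨i, hi, j, hj, fun h0 => hij ?_⟩
      rw [← hpA i hi j hj, h0]
      rfl)
  intro h0
  apply hC
  rw [← h0]
  refine Finset.sum_congr rfl fun i hi => Finset.sum_congr rfl fun j hj => ?_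
  rw [hev0, hpA i (Finset.mem_range.1 hi) j (Finset.mem_range.1 hj)]

theorem map_zz {K K' : Type*} [Field K] [Field K'] (φ : K →+* K') :
    PowerSeries.map φ (zz K) = zz K' := by
  have h1 : ee K * U K = Dq K (U K) := (Dq_U K).symm
  have h2 : ee K' * U K' = Dq K' (U K') := (Dq_U K').symm
  have h3 : PowerSeries.map φ (ee K) = ee K' := by
    apply mul_right_cancel₀ (U_ne_zero K')
    rw [h2, ← map_U φ, ← map_mul, h1, LFc_map_Dq, map_U]
  unfold zz
  rw [map_mul, map_pow, map_Uinv, h3]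

/-- independence of `z` and `T1 = F U^(-κ)` over a level datum -/
theorem ind {K : Type} [Field K] [CharZero K] (κ : ℕ) (hκ : 0 < κ)
    {r : ℕ} {e : Fin r → K⟦X⟧} (h : LD K r e) (f : K⟦X⟧)
    (hf : f * (U K)⁻¹ ^ (κ + 2) ∈ SP K e) (hd : IsDeg K (κ + 2) ((f * (U K)⁻¹ ^ (κ + 2)) ^ 2))
    (hne : f ≠ 0) (F : K⟦X⟧) (hF : Dq K F = f) (L : ℕ) (P : ℕ → ℕ → K⟦X⟧)
    (hP : ∀ i < L, ∀ j < L, P i j ∈ SP K e) (hP0 : ∃ i < L, ∃ j < L, P i j ≠ 0) :
    ∑ i ∈ Finset.range L, ∑ j ∈ Finset.range L,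
      P i j * zz K ^ i * (F * (U K)⁻¹ ^ κ) ^ j ≠ 0 := by
  let Ω := AlgebraicClosure K
  let φ : K →+* Ω := algebraMap K Ω
  have hφ : Function.Injective (PowerSeries.map φ) := by
    intro a b hab
    ext n
    have := congrArg (PowerSeries.coeff n) hab
    rw [PowerSeries.coeff_map, PowerSeries.coeff_map] at this
    exact φ.injective this
  have hLD : LD Ω r (fun l => PowerSeries.map φ (e l)) := by
    refine ⟨?_, ?_, ?_⟩
    · have := map_SP φ h.one
      rwa [map_one] at this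
    · intro l l'
      have := map_SP φ (h.mul l l')
      rwa [map_mul] at this
    · intro l
      have := map_SP φ (h.del l)
      rwa [map_del] at this
  have e1 : PowerSeries.map φ (f * (U K)⁻¹ ^ (κ + 2)) =
      PowerSeries.map φ f * (U Ω)⁻¹ ^ (κ + 2) := by
    rw [map_mul, map_pow, map_Uinv]
  have hC := ind_closed κ hκ hLD (PowerSeries.map φ f)
    (by rw [← e1]; exact map_SP φ hf)
    (by rw [← e1, ← map_pow]; exact hd.map φ)
    (fun h0 => hne (hφ (h0.trans (map_zero _).symm))) (PowerSeries.map φ F)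
    (by rw [← LFc_map_Dq, hF]) L (fun i j => PowerSeries.map φ (P i j))
    (fun i hi j hj => map_SP φ (hP i hi j hj))
    (by
      obtain ⟨i, hi, j, hj, hij⟩ := hP0
      exact ⟨i, hi, j, hj, fun h0 => hij (hφ (h0.trans (map_zero _).symm))⟩)
  intro h0
  apply hC
  have h1 := congrArg (PowerSeries.map φ) h0
  rw [map_zero, map_sum] at h1
  rw [← h1]
  refine Finset.sum_congr rfl fun i _ => ?_
  rw [map_sum]
  refine Finset.sum_congr rfl fun j _ => ?_
  rw [map_mul, map_mul, map_pow, map_pow, map_zz, map_mul, map_pow, map_Uinv]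

end Pool.Agent.H85.OP

namespace Pool.Agent.H85.OP

open Pool.Agent.H85.OT Pool.Agent.H85.OU PowerSeries

theorem del_xx {K : Type*} [Field K] (h2 : (2 : K) ≠ 0) :
    OT.del K (xx K) = evl K (Polynomial.C (-(1 / 2)) * Polynomial.X) * xx K := by
  have h1 := Dq_xx K h2
  have h3 := Zest_inv (K := K)
  have h4 : (2 : K⟦X⟧) * PowerSeries.C (1 / 2 : K) = 1 := by
    have h8 : (2 : K⟦X⟧) = PowerSeries.C (2 : K) := (map_ofNat _ 2).symm
    rw [h8, ← map_mul, mul_one_div, div_self h2, map_one]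
  rw [OT.del_apply, map_mul, evl, Polynomial.aeval_X, Polynomial.aeval_C, map_neg,
    ← PowerSeries.algebraMap_eq] at *
  have h5 : (2 : K⟦X⟧) ≠ 0 := by
    intro h6
    rw [h6, zero_mul] at h4
    exact zero_ne_one h4
  apply mul_left_cancel₀ h5
  unfold lam
  linear_combination (U K)⁻¹ ^ 2 * h1 - (xx K * (1 - xx K ^ 2)) * h3 +
    ((1 - xx K ^ 2) * xx K) * h4

/-- `1, x` -/
noncomputable def ex (K : Type*) [Field K] : Fin 2 → K⟦X⟧ := ![1, xx K]

theorem ex_one {K : Type*} [Field K] : (1 : K⟦X⟧) ∈ SP K (ex K) := by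
  have := SP_gen (K := K) (e := ex K) 0
  simpa [ex] using this

theorem ex_xx {K : Type*} [Field K] : xx K ∈ SP K (ex K) := by
  have := SP_gen (K := K) (e := ex K) 1
  simpa [ex] using this

theorem LD_ex {K : Type*} [Field K] (h2 : (2 : K) ≠ 0) : LD K 2 (ex K) := by
  have hx2 : xx K * xx K = evl K (1 - Polynomial.X) * 1 := by
    rw [evl, map_sub, map_one, Polynomial.aeval_X]
    unfold lam
    ring
  refine ⟨ex_one, ?_, ?_⟩
  · intro l l'
    fin_cases l <;> fin_cases l'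
    · have : ex K 0 * ex K 0 = 1 := by simp [ex]
      show ex K 0 * ex K 0 ∈ _
      rw [this]
      exact ex_one
    · have : ex K 0 * ex K 1 = xx K := by simp [ex]
      show ex K 0 * ex K 1 ∈ _
      rw [this]
      exact ex_xx
    · have : ex K 1 * ex K 0 = xx K := by simp [ex]
      show ex K 1 * ex K 0 ∈ _
      rw [this]
      exact ex_xx
    · have : ex K 1 * ex K 1 = xx K * xx K := by simp [ex]
      show ex K 1 * ex K 1 ∈ _
      rw [this, hx2]
      exact SP_evl_mul _ ex_one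
  · intro l
    fin_cases l
    · have : ex K 0 = 1 := by simp [ex]
      show OT.del K (ex K 0) ∈ _
      rw [this, (OT.del K).map_one]
      exact MPg_SP (n := 0) MPg_zero
    · have : ex K 1 = xx K := by simp [ex]
      show OT.del K (ex K 1) ∈ _
      rw [this, del_xx h2]
      exact SP_evl_mul _ ex_xx

/-- `x` can be adjoined to a level datum -/
theorem LD_x {K : Type*} [Field K] (h2 : (2 : K) ≠ 0) {r : ℕ} {e : Fin r → K⟦X⟧}
    (h : LD K r e) : ∃ (r' : ℕ) (e' : Fin r' → K⟦X⟧), LD K r' e' ∧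
      (∀ y ∈ SP K e, y ∈ SP K e') ∧ xx K ∈ SP K e' := by
  refine ⟨r * 2, LFc_e e (ex K), LFc_LD h (LD_ex h2), fun y hy => ?_, ?_⟩
  · have := LFc_mul hy (ex_one (K := K))
    rwa [mul_one] at this
  · have := LFc_mul h.one (ex_xx (K := K))
    rwa [one_mul] at this

end Pool.Agent.H85.OP
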