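import Pool.Agent.H85.OP.Cj
import Pool.Agent.H85.OU.ThC
import Pool.Agent.H85.OT.Wcong

/-!
# Project OP (MP_17d720): number fields, all finite index subgroups, all cusp widths

`Core` is the theorem for odd series with integral coefficients (proved elsewhere).
-/

open PowerSeries UpperHalfPlane ModularForm MatrixGroups CongruenceSubgroup NumberField
open Pool.Agent.H85.OT Pool.Agent.H85.OU

namespace Pool.Agent.H85.OP

/-- the core theorem: odd integral power series which are forms of weight `k ≥ 3` -/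
def Core : Prop :=
  ∀ (f : ℤ⟦X⟧) (k : ℕ), 3 ≤ k → LForm ℚ k (PowerSeries.map (Int.castRingHom ℚ) f) →
    (∀ n, 2 ∣ n → PowerSeries.coeff n f = 0) → f ≠ 0 →
    PosLower (fun p => ∃ m : ℕ, ¬ 2 ∣ p * m ∧ ¬ ((p : ℤ) ∣ PowerSeries.coeff (p * m) f))

/-- the odd part -/
noncomputable def oddp (R : Type*) [CommRing R] (G : R⟦X⟧) : R⟦X⟧ :=
  PowerSeries.mk fun n => if 2 ∣ n then 0 else PowerSeries.coeff n G

theorem coeff_oddp {R : Type*} [CommRing R] (G : R⟦X⟧) (n : ℕ) :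
    PowerSeries.coeff n (oddp R G) = if 2 ∣ n then 0 else PowerSeries.coeff n G :=
  PowerSeries.coeff_mk _ _

theorem map_oddp {R S : Type*} [CommRing R] [CommRing S] (φ : R →+* S) (G : R⟦X⟧) :
    PowerSeries.map φ (oddp R G) = oddp S (PowerSeries.map φ G) := by
  ext n
  rw [PowerSeries.coeff_map, coeff_oddp, coeff_oddp, PowerSeries.coeff_map]
  split_ifs
  · exact map_zero φ
  · rfl

theorem oddp_eq (G : ℂ⟦X⟧) :
    oddp ℂ G = PowerSeries.C (1 / 2 : ℂ) * G + PowerSeries.C (-(1 / 2) : ℂ) * alt ℂ G := by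
  ext n
  rw [map_add, PowerSeries.coeff_C_mul, PowerSeries.coeff_C_mul, coeff_oddp, coeff_alt]
  split_ifs with h
  · obtain ⟨m, rfl⟩ := h
    rw [pow_mul]
    norm_num
  · have h1 : Odd n := Nat.not_even_iff_odd.1 (fun h2 => h h2.two_dvd)
    rw [h1.neg_one_pow]
    ring

/-- the odd part of a form is a form -/
theorem lform_oddp {Γ : Subgroup SL(2, ℤ)} (hfin : Γ.FiniteIndex)
    {k : ℕ} {g : ℍ → ℂ} (hg : IsMF Γ (k : ℤ) g) {G : ℂ⟦X⟧} (hG : QE g G) :
    LForm ℂ k (oddp ℂ G) := by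
  obtain ⟨Γ1, h1, h2, h3⟩ := extend_T hfin hg hG
  obtain ⟨Γ3, h, h4, h5, h6, h7⟩ := exists_half hfin hg hG
  rw [oddp_eq]
  exact ((lform_of_mf h1 h2 h3 hG).smul _).add ((lform_of_mf h4 h5 h6 h7).smul _)

theorem mainO (core : Core) (E : Type) [Field E] [NumberField E] (σ : E →+* ℂ)
    {Γ : Subgroup SL(2, ℤ)} (hfin : Γ.FiniteIndex) (k : ℕ) (hk : 3 ≤ k) {g : ℍ → ℂ}
    (hg : IsMF Γ (k : ℤ) g) (F : (𝓞 E)⟦X⟧)
    (hF : QE g (PowerSeries.map (σ.comp (algebraMap (𝓞 E) E)) F))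
    (hodd : ∃ n, ¬ 2 ∣ n ∧ PowerSeries.coeff n F ≠ 0) :
    PosLower (fun p => ∃ m : ℕ, ¬ 2 ∣ p * m ∧ ¬ ((p : 𝓞 E) ∣ PowerSeries.coeff (p * m) F)) := by
  have h1 : LForm ℂ k (oddp ℂ (PowerSeries.map (σ.comp (algebraMap (𝓞 E) E)) F)) :=
    lform_oddp hfin hg hF
  rw [← map_oddp] at h1
  have h2 : LForm E k (PowerSeries.map (algebraMap (𝓞 E) E) (oddp (𝓞 E) F)) := by
    refine LForm.descend σ ?_
    have e : PowerSeries.map σ (PowerSeries.map (algebraMap (𝓞 E) E) (oddp (𝓞 E) F)) =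
        PowerSeries.map (σ.comp (algebraMap (𝓞 E) E)) (oddp (𝓞 E) F) := by
      ext n
      simp
    rwa [e]
  obtain ⟨r, hr2, hr⟩ := hodd
  obtain ⟨β, m, hm, hβ⟩ : ∃ (β : 𝓞 E) (m : ℤ), m ≠ 0 ∧
      β * PowerSeries.coeff r F = algebraMap ℤ (𝓞 E) m := by
    have h1 := Ideal.absNorm_mem (Ideal.span {PowerSeries.coeff r F})
    obtain ⟨β, hβ⟩ := Ideal.mem_span_singleton'.1 h1
    refine ⟨β, (Ideal.absNorm (Ideal.span {PowerSeries.coeff r F}) : ℤ), ?_, ?_⟩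
    · rw [Nat.cast_ne_zero]
      intro h2
      rw [Ideal.absNorm_eq_zero_iff, Ideal.span_singleton_eq_bot] at h2
      exact hr h2
    · rw [hβ]
      simp
  have h3 := core (PowerSeries.mk fun n => ThC_T E β (PowerSeries.coeff n (oddp (𝓞 E) F))) k hk
    (ThC_form E (oddp (𝓞 E) F) k h2 β)
    (fun n hn => by rw [PowerSeries.coeff_mk, coeff_oddp, if_pos hn, _root_.map_zero])
    (fun h => by
      have h1 := congrArg (PowerSeries.coeff r) h
      rw [PowerSeries.coeff_mk, _root_.map_zero, coeff_oddp, if_neg hr2, ThC_T_apply, hβ,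
        Algebra.trace_algebraMap, nsmul_eq_mul] at h1
      rcases mul_eq_zero.1 h1 with h2 | h2
      · have h3 : 0 < Module.finrank ℤ (𝓞 E) := Module.finrank_pos
        have h4 : (Module.finrank ℤ (𝓞 E)) = 0 := by exact_mod_cast h2
        omega
      · exact hm h2)
  refine PosLower.congr 0 (fun p _ hp => ?_) h3
  obtain ⟨m, hm1, hm2⟩ := hp
  refine ⟨m, hm1, fun h4 => hm2 ?_⟩
  rw [PowerSeries.coeff_mk, coeff_oddp, if_neg hm1]
  have h5 := ThC_T_dvd E β (PowerSeries.coeff (p * m) F) p 1 (by rwa [pow_one])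
  rwa [pow_one] at h5

/-- non-constant forms -/
theorem mainE (core : Core) (E : Type) [Field E] [NumberField E] (σ : E →+* ℂ)
    (k : ℕ) (hk : 3 ≤ k) (r : ℕ) :
    ∀ {Γ : Subgroup SL(2, ℤ)} (_ : Γ.FiniteIndex) {g : ℍ → ℂ}
    (_ : IsMF Γ (k : ℤ) g) (F : (𝓞 E)⟦X⟧)
    (_ : QE g (PowerSeries.map (σ.comp (algebraMap (𝓞 E) E)) F))
    (_ : 1 ≤ r) (_ : PowerSeries.coeff r F ≠ 0),
    PosLower (fun p => ∃ m : ℕ, 1 ≤ m ∧ ¬ ((p : 𝓞 E) ∣ PowerSeries.coeff (p * m) F)) := by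
  induction r using Nat.strong_induction_on with
  | _ r ih =>
    intro Γ hfin g hg F hF hr hne
    by_cases hodd : ∃ n, ¬ 2 ∣ n ∧ PowerSeries.coeff n F ≠ 0
    · refine PosLower.congr 0 (fun p _ hp => ?_) (mainO core E σ hfin k hk hg F hF hodd)
      obtain ⟨m, hm1, hm2⟩ := hp
      refine ⟨m, ?_, hm2⟩
      rcases Nat.eq_zero_or_pos m with h | h
      · rw [h, mul_zero] at hm1
        exact absurd (dvd_zero 2) hm1
      · exact h
    · push Not at hodd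
      have h2 : 2 ∣ r := by
        by_contra h
        exact hne (hodd r h)
      obtain ⟨s, rfl⟩ := h2
      let F1 : (𝓞 E)⟦X⟧ := PowerSeries.mk fun n => PowerSeries.coeff (2 * n) F
      have e : PowerSeries.map (σ.comp (algebraMap (𝓞 E) E)) F =
          dbl ℂ (PowerSeries.map (σ.comp (algebraMap (𝓞 E) E)) F1) := by
        ext n
        unfold dbl
        rw [PowerSeries.coeff_expand, PowerSeries.coeff_map]
        split_ifs with h
        · obtain ⟨i, rfl⟩ := h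
          rw [Nat.mul_div_cancel_left i two_pos, PowerSeries.coeff_map, PowerSeries.coeff_mk]
        · rw [hodd n h, map_zero]
      rw [e] at hF
      obtain ⟨Γ3, h, h3, h4, h5, h6⟩ := exists_halving hfin hg hF
      refine PosLower.congr 0 (fun p _ hp => ?_) (ih s (by omega) h3 h5 F1 h6 (by omega)
        (by rw [PowerSeries.coeff_mk]; exact hne))
      obtain ⟨m, hm1, hm2⟩ := hp
      rw [PowerSeries.coeff_mk] at hm2
      refine ⟨2 * m, by omega, ?_⟩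
      have e2 : p * (2 * m) = 2 * (p * m) := by ring
      rwa [e2]

/-- `g(wτ)` for a form whose group contains `T^w` -/
theorem QE_width {Γ : Subgroup SL(2, ℤ)} {j : ℤ} {f : ℍ → ℂ} (hf : IsMF Γ j f) (w : ℕ)
    (hw : 0 < w) (hT : ModularGroup.T ^ w ∈ Γ) :
    QE (fun τ => f (aff (w : ℚ) (by exact_mod_cast hw) 0 τ)) (qExpansion (w : ℝ) f) := by
  have hper1 : ∀ τ : ℍ, f ((w : ℝ) +ᵥ τ) = f τ := by
    intro τ
    have h1 := congrFun (hf.2.1 _ hT) τ
    have h2 : ModularGroup.T ^ w • τ = (w : ℝ) +ᵥ τ := by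
      have := UpperHalfPlane.modular_T_zpow_smul τ (w : ℤ)
      rw [zpow_natCast] at this
      rw [this]
      norm_cast
    rw [SL_slash_apply, h2] at h1
    have h3 : denom (ModularGroup.T ^ w : SL(2, ℤ)) τ = 1 := by
      rw [Me_den]
      have h4 : ((ModularGroup.T ^ w : SL(2, ℤ)) : Matrix (Fin 2) (Fin 2) ℤ) = !![1, (w : ℤ); 0, 1] := by
        have := ModularGroup.coe_T_zpow (w : ℤ)
        rwa [zpow_natCast] at this
      rw [h4]
      simp
    rw [h3, one_zpow, mul_one] at h1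
    exact h1
  have hwR : (0 : ℝ) < (w : ℝ) := by exact_mod_cast hw
  have hper : Function.Periodic (f ∘ UpperHalfPlane.ofComplex) (w : ℝ) := by
    intro z
    by_cases hz : 0 < z.im
    · have hz1 : 0 < (z + ((w : ℝ) : ℂ)).im := by
        simpa using hz
      show f (UpperHalfPlane.ofComplex (z + ((w : ℝ) : ℂ))) = f (UpperHalfPlane.ofComplex z)
      rw [UpperHalfPlane.ofComplex_apply_of_im_pos hz, UpperHalfPlane.ofComplex_apply_of_im_pos hz1,
        ← hper1 ⟨z, hz⟩]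
      congr 1
      ext1
      show z + ((w : ℝ) : ℂ) = (((w : ℝ) +ᵥ (⟨z, hz⟩ : ℍ) : ℍ) : ℂ)
      rw [UpperHalfPlane.coe_vadd, add_comm]
    · have hz1 : ¬ 0 < (z + ((w : ℝ) : ℂ)).im := by
        simpa using hz
      show f (UpperHalfPlane.ofComplex (z + ((w : ℝ) : ℂ))) = f (UpperHalfPlane.ofComplex z)
      rw [UpperHalfPlane.ofComplex_apply_of_im_nonpos (not_lt.1 hz),
        UpperHalfPlane.ofComplex_apply_of_im_nonpos (not_lt.1 hz1)]
  have hbdd : IsBoundedAtImInfty f := by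
    have h1 := hf.2.2 1
    rwa [SlashAction.slash_one] at h1
  intro τ
  have hs := UpperHalfPlane.hasSum_qExpansion hwR hper hf.1 hbdd
    (aff (w : ℚ) (by exact_mod_cast hw) 0 τ)
  have hq : Function.Periodic.qParam (w : ℝ)
      ((aff (w : ℚ) (by exact_mod_cast hw) 0 τ : ℍ) : ℂ) =
      Complex.exp (2 * Real.pi * Complex.I * (τ : ℂ)) := by
    rw [Function.Periodic.qParam, coe_aff]
    congr 1
    have hwC : ((w : ℝ) : ℂ) ≠ 0 := by exact_mod_cast hw.ne'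
    rw [div_eq_iff hwC]
    push_cast
    ring
  rw [hq] at hs
  have hs' : HasSum (fun n => PowerSeries.coeff n (qExpansion (w : ℝ) f) *
      Complex.exp (2 * Real.pi * Complex.I * (τ : ℂ)) ^ n)
      (f (aff (w : ℚ) (by exact_mod_cast hw) 0 τ)) := hs
  exact ⟨hs'.summable.norm, hs'⟩

/-- modular forms (Mathlib's `ModularForm`) of weight `k ≥ 3` for any subgroup of finite index of `SL₂(ℤ)`,
q-expansion at `∞` with respect to any width `w` -/
theorem main_mf (core : Core) (E : Type) [Field E] [NumberField E] (σ : E →+* ℂ)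
    (Γ : Subgroup SL(2, ℤ)) [hfin : Γ.FiniteIndex] (w : ℕ) (hw : 0 < w)
    (hT : ModularGroup.T ^ w ∈ Γ) (k : ℕ) (hk : 3 ≤ k)
    (g : ModularForm (Γ : Subgroup (GL (Fin 2) ℝ)) (k : ℤ)) (F : (𝓞 E)⟦X⟧)
    (hF : qExpansion (w : ℝ) (g : ℍ → ℂ) = PowerSeries.map (σ.comp (algebraMap (𝓞 E) E)) F)
    (hne : ∃ n, 1 ≤ n ∧ PowerSeries.coeff n F ≠ 0) :
    PosLower (fun p => ∃ m : ℕ, 1 ≤ m ∧ ¬ ((p : 𝓞 E) ∣ PowerSeries.coeff (p * m) F)) := by
  have hg := IsMF.of_modularForm g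
  have h1 := QE_width hg w hw hT
  rw [hF] at h1
  obtain ⟨Γ', h2, h3⟩ := exists_aff hfin hg (w : ℚ) (by exact_mod_cast hw) 0
  obtain ⟨r, hr, hr'⟩ := hne
  exact mainE core E σ k hk r h2 h3 F h1 hr hr'

/-- only the primes matter for `PosLower` -/
theorem PosLower_prime {P Q : ℕ → Prop} (N : ℕ) (h : ∀ p : ℕ, N ≤ p → p.Prime → P p → Q p)
    (hP : PosLower P) : PosLower Q := by
  have key : PosLower (fun p => p.Prime → Q p) :=
    PosLower.congr N (fun p hpN hp hpp => h p hpN hpp hp) hP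
  obtain ⟨c, hc, x0, hx⟩ := key
  refine ⟨c, hc, x0, fun x hxx => (hx x hxx).trans ?_⟩
  classical
  unfold cnt
  refine Nat.cast_le.2 (Finset.card_le_card fun p hp => ?_)
  simp only [Finset.mem_filter] at hp ⊢
  exact ⟨hp.1, hp.2.1, hp.2.2 hp.2.1⟩

/-- eigenforms: `λ_p` the eigenvalue of the Hecke operator `T_p`, `p ∤ N` -/
theorem main_eig (core : Core) (E : Type) [Field E] [NumberField E] (σ : E →+* ℂ)
    (Γ : Subgroup SL(2, ℤ)) [hfin : Γ.FiniteIndex] (w : ℕ) (hw : 0 < w)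
    (hT : ModularGroup.T ^ w ∈ Γ) (k : ℕ) (hk : 3 ≤ k)
    (g : ModularForm (Γ : Subgroup (GL (Fin 2) ℝ)) (k : ℤ)) (F : (𝓞 E)⟦X⟧)
    (hF : qExpansion (w : ℝ) (g : ℍ → ℂ) = PowerSeries.map (σ.comp (algebraMap (𝓞 E) E)) F)
    (hne : ∃ n, 1 ≤ n ∧ PowerSeries.coeff n F ≠ 0) (N : ℕ) (hN : 1 ≤ N) (lam χ : ℕ → 𝓞 E)
    (heck : ∀ p : ℕ, p.Prime → ¬ p ∣ N → ∀ n : ℕ, 1 ≤ n → PowerSeries.coeff (p * n) F =
      lam p * PowerSeries.coeff n F -
        χ p * (p : 𝓞 E) ^ (k - 1) * (if p ∣ n then PowerSeries.coeff (n / p) F else 0)) :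
    PosLower (fun p => ¬ (p : 𝓞 E) ∣ lam p) := by
  have h := main_mf core E σ Γ w hw hT k hk g F hF hne
  refine PosLower_prime (N + 1) (fun p hpN hpp hp hd => ?_) h
  obtain ⟨m, hm, hm'⟩ := hp
  apply hm'
  rw [heck p hpp (fun hd' => by have := Nat.le_of_dvd (by omega) hd'; omega) m hm]
  refine dvd_sub (dvd_mul_of_dvd_left hd _) ?_
  refine dvd_mul_of_dvd_left (dvd_mul_of_dvd_right ?_ _) _
  exact dvd_pow_self _ (by omega)

end Pool.Agent.H85.OP
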