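import Pool.Agent.H85.OU.Mh
import Mathlib.NumberTheory.ModularForms.CongruenceSubgroups

/-!
# Project OP (MP_17d720): conjugation of forms by `GL₂(ℚ)`

* `exists_conj`: `g` a form of weight `j` for a subgroup of finite index, `α ∈ GL₂(ℚ)`: `g ∣[j] α` is a form of
  weight `j` for a subgroup of finite index.
* `IsMF.extend`: a form with a q-expansion in integral powers of `q` is a form for a subgroup of finite index which
  contains `T` (the stabiliser).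
-/

open PowerSeries UpperHalfPlane ModularForm MatrixGroups CongruenceSubgroup
open scoped Manifold Pointwise

namespace Pool.Agent.H85.OP

open Pool.Agent.H85.OT Pool.Agent.H85.OU

theorem exists_conj {Γ : Subgroup SL(2, ℤ)} (hfin : Γ.FiniteIndex) {j : ℤ} {g : ℍ → ℂ}
    (hg : IsMF Γ j g) (α : GL (Fin 2) ℚ) :
    ∃ Γ' : Subgroup SL(2, ℤ), Γ'.FiniteIndex ∧
      IsMF Γ' j (g ∣[j] (α.map (Rat.castHom ℝ) : GL (Fin 2) ℝ)) := by
  haveI := hfin
  obtain ⟨G, hG⟩ := hg.exists_modularForm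
  let a : GL (Fin 2) ℝ := α.map (Rat.castHom ℝ)
  let H := ModularForm.translate G a
  haveI hA : (ConjAct.toConjAct a⁻¹ • (Γ : Subgroup (GL (Fin 2) ℝ))).IsArithmetic := by
    have := Subgroup.IsArithmetic.conj (Γ : Subgroup (GL (Fin 2) ℝ)) α⁻¹
    have e : (α⁻¹).map (Rat.castHom ℝ) = a⁻¹ := by
      simp [a]
    rwa [e] at this
  refine ⟨(ConjAct.toConjAct a⁻¹ • (Γ : Subgroup (GL (Fin 2) ℝ))).comap
    (Matrix.SpecialLinearGroup.mapGL (R := ℤ) ℝ), inferInstance, ?_⟩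
  have hH : (H : ℍ → ℂ) = g ∣[j] a := by
    rw [← hG]
    rfl
  rw [← hH]
  refine ⟨ModularFormClass.holo H, ?_, fun γ => ModularFormClass.bdd_at_infty_slash H γ⟩
  intro γ hγ
  exact SlashInvariantFormClass.slash_action_eq H _ hγ

/-- the map `τ ↦ a τ + b` -/
noncomputable def aff (a : ℚ) (ha : 0 < a) (b : ℚ) (τ : ℍ) : ℍ :=
  ⟨(a : ℂ) * τ + (b : ℂ), by
    have h : 0 < ((a : ℝ)) * τ.im := mul_pos (by exact_mod_cast ha) τ.im_pos
    simpa using h⟩

theorem coe_aff (a : ℚ) (ha : 0 < a) (b : ℚ) (τ : ℍ) :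
    ((aff a ha b τ : ℍ) : ℂ) = (a : ℂ) * τ + (b : ℂ) := rfl

/-- `g(a τ + b)` is a form for a subgroup of finite index -/
theorem exists_aff {Γ : Subgroup SL(2, ℤ)} (hfin : Γ.FiniteIndex) {j : ℤ} {g : ℍ → ℂ}
    (hg : IsMF Γ j g) (a : ℚ) (ha : 0 < a) (b : ℚ) :
    ∃ Γ' : Subgroup SL(2, ℤ), Γ'.FiniteIndex ∧ IsMF Γ' j (fun τ => g (aff a ha b τ)) := by
  have hdet : (!![a, b; 0, 1] : Matrix (Fin 2) (Fin 2) ℚ).det ≠ 0 := by
    rw [Matrix.det_fin_two_of]
    simpa using ha.ne'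
  let α : GL (Fin 2) ℚ := Matrix.GeneralLinearGroup.mkOfDetNeZero !![a, b; 0, 1] hdet
  obtain ⟨Γ', h1, h2⟩ := exists_conj hfin hg α
  refine ⟨Γ', h1, ?_⟩
  let A : GL (Fin 2) ℝ := α.map (Rat.castHom ℝ)
  have hA : ∀ i k, (A : Matrix (Fin 2) (Fin 2) ℝ) i k =
      ((!![a, b; 0, 1] : Matrix (Fin 2) (Fin 2) ℚ) i k : ℝ) := fun i k => rfl
  have hdetA : (A.det : ℝ) = (a : ℝ) := by
    have : (A.det : ℝ) = (A : Matrix (Fin 2) (Fin 2) ℝ).det := rfl
    rw [this, Matrix.det_fin_two, hA, hA, hA, hA]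
    simp
  have haR : (0 : ℝ) < (a : ℝ) := by exact_mod_cast ha
  have hpos : 0 < (A.det : ℝ) := by rw [hdetA]; exact haR
  have hden : ∀ τ : ℍ, denom A τ = 1 := by
    intro τ
    unfold denom
    rw [hA, hA]
    simp
  have hsm : ∀ τ : ℍ, A • τ = aff a ha b τ := by
    intro τ
    apply UpperHalfPlane.ext
    rw [coe_smul_of_det_pos hpos, hden, div_one, coe_aff]
    unfold num
    rw [hA, hA]
    simp
  have hsig : ∀ z : ℂ, σ A z = z := by
    intro z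
    unfold σ
    rw [if_pos hpos]
    rfl
  have he : (g ∣[j] A) = (((|(a : ℝ)| : ℝ) : ℂ) ^ (j - 1)) • fun τ => g (aff a ha b τ) := by
    funext τ
    rw [ModularForm.slash_apply, hsm, hsig, hden, one_zpow, mul_one, hdetA, Pi.smul_apply,
      smul_eq_mul, mul_comm]
  have hne : (((|(a : ℝ)| : ℝ) : ℂ) ^ (j - 1)) ≠ 0 := by
    apply zpow_ne_zero
    rw [Complex.ofReal_ne_zero]
    exact (abs_pos.2 haR.ne').ne'
  have h3 := h2.smul (((((|(a : ℝ)| : ℝ) : ℂ)) ^ (j - 1))⁻¹)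
  have h4 : (((((|(a : ℝ)| : ℝ) : ℂ)) ^ (j - 1))⁻¹) • (g ∣[j] A) = fun τ => g (aff a ha b τ) := by
    rw [he, smul_smul, inv_mul_cancel₀ hne, one_smul]
  rwa [h4] at h3

/-- the stabiliser -/
def stab (j : ℤ) (h : ℍ → ℂ) : Subgroup SL(2, ℤ) where
  carrier := {γ | h ∣[j] γ = h}
  one_mem' := SlashAction.slash_one j h
  mul_mem' := by
    intro a b ha hb
    show h ∣[j] (a * b) = h
    rw [SlashAction.slash_mul, ha, hb]
  inv_mem' := by
    intro a ha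
    show h ∣[j] a⁻¹ = h
    have h1 : (h ∣[j] a) ∣[j] a⁻¹ = h := by
      rw [← SlashAction.slash_mul, mul_inv_cancel, SlashAction.slash_one]
    rwa [ha] at h1

theorem extend_T {Γ : Subgroup SL(2, ℤ)} (hfin : Γ.FiniteIndex) {j : ℤ} {h : ℍ → ℂ}
    (hh : IsMF Γ j h) {H : ℂ⟦X⟧} (hH : QE h H) :
    ∃ Γ' : Subgroup SL(2, ℤ), Γ'.FiniteIndex ∧ ModularGroup.T ∈ Γ' ∧ IsMF Γ' j h := by
  haveI := hfin
  refine ⟨stab j h, Subgroup.finiteIndex_of_le (H := Γ) hh.2.1, ?_, hh.1, fun γ hγ => hγ, hh.2.2⟩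
  show h ∣[j] ModularGroup.T = h
  funext τ
  rw [ModularForm.SL_slash_apply]
  have h1 : ((ModularGroup.T • τ : ℍ) : ℂ) = (τ : ℂ) + 1 := by
    rw [UpperHalfPlane.modular_T_smul]
    simp [add_comm]
  have h2 : denom ModularGroup.T τ = 1 := by
    rw [Me_den]
    simp [ModularGroup.T]
  have h3 := hH (ModularGroup.T • τ)
  have h4 : Complex.exp (2 * Real.pi * Complex.I * ((ModularGroup.T • τ : ℍ) : ℂ)) =
      Complex.exp (2 * Real.pi * Complex.I * (τ : ℂ)) := by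
    rw [h1, mul_add, mul_one, Complex.exp_add, Complex.exp_two_pi_mul_I, mul_one]
  rw [h4] at h3
  rw [h2, one_zpow, mul_one]
  exact h3.unique (hH τ)

/-- the series `∑ (-1)^n G_n q^n` -/
noncomputable def alt (R : Type*) [CommRing R] (G : R⟦X⟧) : R⟦X⟧ :=
  PowerSeries.mk fun n => (-1) ^ n * PowerSeries.coeff n G

theorem coeff_alt {R : Type*} [CommRing R] (G : R⟦X⟧) (n : ℕ) :
    PowerSeries.coeff n (alt R G) = (-1) ^ n * PowerSeries.coeff n G := PowerSeries.coeff_mk _ _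

/-- `g(τ + 1/2)` -/
theorem exists_half {Γ : Subgroup SL(2, ℤ)} (hfin : Γ.FiniteIndex)
    {j : ℤ} {g : ℍ → ℂ} (hg : IsMF Γ j g) {G : ℂ⟦X⟧} (hG : QE g G) :
    ∃ (Γ3 : Subgroup SL(2, ℤ)) (h : ℍ → ℂ), Γ3.FiniteIndex ∧ ModularGroup.T ∈ Γ3 ∧
      IsMF Γ3 j h ∧ QE h (alt ℂ G) := by
  obtain ⟨Γ', h1, h2⟩ := exists_aff hfin hg 1 one_pos (1 / 2)
  have hQ : QE (fun τ => g (aff 1 one_pos (1 / 2) τ)) (alt ℂ G) := by
    intro τ
    have h3 := hG (aff 1 one_pos (1 / 2) τ)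
    have h4 : Complex.exp (2 * Real.pi * Complex.I * ((aff 1 one_pos (1 / 2) τ : ℍ) : ℂ)) =
        -Complex.exp (2 * Real.pi * Complex.I * (τ : ℂ)) := by
      rw [coe_aff]
      have e : 2 * (Real.pi : ℂ) * Complex.I * (((1 : ℚ) : ℂ) * τ + ((1 / 2 : ℚ) : ℂ)) =
          2 * Real.pi * Complex.I * τ + Real.pi * Complex.I := by
        push_cast
        ring
      rw [e, Complex.exp_add, Complex.exp_pi_mul_I]
      ring
    rw [h4] at h3
    have h5 : ∀ n, PowerSeries.coeff n G * (-Complex.exp (2 * Real.pi * Complex.I * (τ : ℂ))) ^ n =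
        PowerSeries.coeff n (alt ℂ G) * Complex.exp (2 * Real.pi * Complex.I * (τ : ℂ)) ^ n := by
      intro n
      rw [coeff_alt, neg_pow]
      ring
    refine ⟨?_, ?_⟩
    · refine h3.1.congr fun n => ?_
      rw [h5]
    · have h6 := h3.2
      simp only [h5] at h6
      exact h6
  obtain ⟨Γ'', h6, h7, h8⟩ := extend_T h1 h2 hQ
  exact ⟨Γ'', _, h6, h7, h8, hQ⟩

/-- `g(τ/2)` when `g` has a q-expansion in powers of `q²` -/
theorem exists_halving {Γ : Subgroup SL(2, ℤ)} (hfin : Γ.FiniteIndex)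
    {j : ℤ} {g : ℍ → ℂ} (hg : IsMF Γ j g) {G : ℂ⟦X⟧} (hG : QE g (dbl ℂ G)) :
    ∃ (Γ3 : Subgroup SL(2, ℤ)) (h : ℍ → ℂ), Γ3.FiniteIndex ∧ ModularGroup.T ∈ Γ3 ∧
      IsMF Γ3 j h ∧ QE h G := by
  obtain ⟨Γ', h1, h2⟩ := exists_aff hfin hg (1 / 2) (by norm_num) 0
  have hQ : QE (fun τ => g (aff (1 / 2) (by norm_num) 0 τ)) G := by
    intro τ
    have h3 := hG (aff (1 / 2) (by norm_num) 0 τ)
    obtain ⟨w, hw⟩ : ∃ w, w = Complex.exp (2 * Real.pi * Complex.I *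
      ((aff (1 / 2) (by norm_num) 0 τ : ℍ) : ℂ)) := ⟨_, rfl⟩
    have h4 : Complex.exp (2 * Real.pi * Complex.I * (τ : ℂ)) = w ^ 2 := by
      rw [hw, coe_aff, ← Complex.exp_nat_mul]
      congr 1
      push_cast
      ring
    rw [← hw] at h3
    rw [h4]
    have hinj : Function.Injective (fun n : ℕ => 2 * n) := fun a b h => by
      have : 2 * a = 2 * b := h
      omega
    have h5 : ∀ n, PowerSeries.coeff (2 * n) (dbl ℂ G) * w ^ (2 * n) =
        PowerSeries.coeff n G * (w ^ 2) ^ n := by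
      intro n
      have h6 : PowerSeries.coeff (2 * n) (dbl ℂ G) = PowerSeries.coeff n G := by
        unfold dbl
        exact PowerSeries.coeff_expand_mul 2 two_ne_zero G n
      rw [h6, pow_mul]
    have h7 : ∀ m, m ∉ Set.range (fun n : ℕ => 2 * n) →
        PowerSeries.coeff m (dbl ℂ G) * w ^ m = 0 := by
      intro m hm
      have h8 : PowerSeries.coeff m (dbl ℂ G) = 0 := by
        unfold dbl
        rw [PowerSeries.coeff_expand]
        split_ifs with h9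
        · exact absurd ⟨m / 2, Nat.mul_div_cancel' h9⟩ hm
        · rfl
      rw [h8, zero_mul]
    refine ⟨?_, ?_⟩
    · have h8 := h3.1.comp_injective hinj
      refine h8.congr fun n => ?_
      show ‖_‖ = ‖_‖
      rw [h5]
    · have h8 := (hinj.hasSum_iff (f := fun m => PowerSeries.coeff m (dbl ℂ G) * w ^ m) h7).2 h3.2
      have h9 : ((fun m => PowerSeries.coeff m (dbl ℂ G) * w ^ m) ∘ fun n : ℕ => 2 * n) =
          fun n => PowerSeries.coeff n G * (w ^ 2) ^ n := by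
        funext n
        exact h5 n
      rwa [h9] at h8
  obtain ⟨Γ'', h6, h7, h8⟩ := extend_T h1 h2 hQ
  exact ⟨Γ'', _, h6, h7, h8, hQ⟩

end Pool.Agent.H85.OP
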